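import Pool.Agent.W586.SK.Stm2

/-!
Project SX: the square of an antisymmetric function, restricted to a half space.
-/

set_option autoImplicit false

namespace Pool.Agent.W40.SX

open Pool.Agent.W586.SK Pool.Agent.W586.SX

theorem half_gen {n : ℕ} (d : E n → ℝ) (hcoord : Continuous d) (f : E n → ℝ)
    (hf : ContDiff ℝ 1 f) (hzero : ∀ x : E n, d x = 0 → f x = 0) :
    ContDiff ℝ 1 (fun x : E n => if 0 < d x then f x ^ 2 else 0) ∧
    ∀ x : E n, fderiv ℝ (fun x : E n => if 0 < d x then f x ^ 2 else 0) x =
      if 0 < d x then (2 * f x) • fderiv ℝ f x else 0 := by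
  have hdiff : Differentiable ℝ f := hf.differentiable (by norm_num)
  have hsq : ∀ x : E n, HasFDerivAt (fun y : E n => f y ^ 2) ((2 * f x) • fderiv ℝ f x) x := by
    intro x
    have h := (hdiff x).hasFDerivAt.pow 2
    have e : 2 * f x = 2 • f x ^ (2 - 1) := by
      rw [show (2 : ℕ) - 1 = 1 from rfl, pow_one, two_smul, two_mul]
    rw [e]
    exact h
  have key : ∀ x : E n, HasFDerivAt (fun x : E n => if 0 < d x then f x ^ 2 else 0)
      (if 0 < d x then (2 * f x) • fderiv ℝ f x else 0) x := by
    intro x
    rcases lt_trichotomy (d x) 0 with hx | hx | hx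
    · rw [if_neg (not_lt.mpr hx.le)]
      have hev : (fun y : E n => if 0 < d y then f y ^ 2 else 0) =ᶠ[nhds x] fun _ => (0 : ℝ) := by
        have : ∀ᶠ y : E n in nhds x, d y < 0 :=
          hcoord.continuousAt.eventually (Iio_mem_nhds hx)
        filter_upwards [this] with y hy
        rw [if_neg (not_lt.mpr hy.le)]
      exact (hasFDerivAt_const (0 : ℝ) x).congr_of_eventuallyEq hev
    · rw [if_neg (by rw [hx]; exact lt_irrefl 0)]
      have h1 := hsq x
      rw [hzero x hx, mul_zero, zero_smul] at h1
      rw [hasFDerivAt_iff_isLittleO] at h1 ⊢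
      refine (Asymptotics.isBigO_of_le _ fun y => ?_).trans_isLittleO h1
      have hx0 : ¬ (0 < d x) := by rw [hx]; exact lt_irrefl 0
      show ‖(if 0 < d y then f y ^ 2 else 0) - (if 0 < d x then f x ^ 2 else 0) -
        (0 : E n →L[ℝ] ℝ) (y - x)‖ ≤ ‖f y ^ 2 - f x ^ 2 - (0 : E n →L[ℝ] ℝ) (y - x)‖
      rw [if_neg hx0, hzero x hx, zero_apply]
      by_cases h : 0 < d y
      · rw [if_pos h]
        simp
      · rw [if_neg h]
        simp only [sub_zero, norm_zero]
        exact norm_nonneg _
    · rw [if_pos hx]
      have hev : (fun y : E n => if 0 < d y then f y ^ 2 else 0) =ᶠ[nhds x]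
          fun y => f y ^ 2 := by
        have : ∀ᶠ y : E n in nhds x, 0 < d y :=
          hcoord.continuousAt.eventually (Ioi_mem_nhds hx)
        filter_upwards [this] with y hy
        rw [if_pos hy]
      exact (hsq x).congr_of_eventuallyEq hev
  have hfd : ∀ x : E n, fderiv ℝ (fun x : E n => if 0 < d x then f x ^ 2 else 0) x =
      if 0 < d x then (2 * f x) • fderiv ℝ f x else 0 := fun x => (key x).fderiv
  refine ⟨?_, hfd⟩
  rw [contDiff_one_iff_fderiv]
  refine ⟨fun x => (key x).differentiableAt, ?_⟩
  have e1 : fderiv ℝ (fun x : E n => if 0 < d x then f x ^ 2 else 0) =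
      fun x : E n => if d x ≤ 0 then 0 else (2 * f x) • fderiv ℝ f x := by
    funext x
    rw [hfd]
    by_cases h : 0 < d x
    · rw [if_pos h, if_neg (not_le.mpr h)]
    · rw [if_neg h, if_pos (not_lt.mp h)]
  rw [e1]
  have hA : Continuous (fun x : E n => (2 * f x) • fderiv ℝ f x) :=
    (continuous_const.mul hf.continuous).smul (hf.continuous_fderiv (by norm_num))
  refine Continuous.if_le continuous_const hA hcoord continuous_const ?_
  intro x hx
  rw [hzero x hx, mul_zero, zero_smul]

theorem half : Pool.Agent.W586.SX.S_HALF := by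
  intro n k l f _ hf hodd
  have hcoord : Continuous (fun x : E n => x k - x l) := by fun_prop
  have hzero : ∀ x : E n, x k - x l = 0 → f x = 0 := by
    intro x hx
    have hx' : x k = x l := sub_eq_zero.1 hx
    have h1 : sw k l x = x := by
      ext j
      rw [sw_apply]
      rcases eq_or_ne j k with h | h
      · subst h
        rw [Equiv.swap_apply_left]
        exact hx'.symm
      · rcases eq_or_ne j l with h' | h'
        · subst h'
          rw [Equiv.swap_apply_right]
          exact hx'
        · rw [Equiv.swap_apply_of_ne_of_ne h h']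
    have h2 := hodd x
    rw [h1] at h2
    linarith
  have h := half_gen (fun x : E n => x k - x l) hcoord f hf hzero
  simp only [sub_pos] at h
  exact h

end Pool.Agent.W40.SX
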